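import Pool.Agent.H71.FX.Targets2

/-!
Board fxm_modules (MP_64fb07_lc), row OC: all elements are reached from the constants.
-/

set_option autoImplicit false

namespace Pool.Agent.H66.FX

open Pool.Agent.H71.FX Pool.Agent.H71.PF

/-- if two iterates are equal, the orbit is covered by the iterates before the second one -/
theorem orbit_sub {α : Type} [DecidableEq α] (f : α → α) (x : α) (s s' : ℕ) (hs : s < s')
    (h : f^[s] x = f^[s'] x) : (Set.range fun k : ℕ => f^[k] x) ⊆
      ((Finset.range s').image (fun t => f^[t] x) : Finset α) := by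
  have key : ∀ k : ℕ, ∃ t < s', f^[t] x = f^[k] x := by
    intro k
    induction k using Nat.strong_induction_on with
    | _ k ih =>
      by_cases hk : k < s'
      · exact ⟨k, hk, rfl⟩
      · obtain ⟨t, ht, e⟩ := ih (k - s' + s) (by omega)
        refine ⟨t, ht, e.trans ?_⟩
        rw [Function.iterate_add_apply, h, ← Function.iterate_add_apply]
        congr 2
        omega
  rintro z ⟨k, rfl⟩
  obtain ⟨t, ht, e⟩ := key k
  rw [Finset.mem_coe, Finset.mem_image]
  exact ⟨t, Finset.mem_range.2 ht, e⟩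

theorem pf_OC (rn : T_RN) (bd : T_BD) : T_OC := by
  intro P M
  classical
  obtain ⟨b, hb⟩ : ∃ b : ℕ, b = P.a * (P.D + 1) + P.a := ⟨_, rfl⟩
  obtain ⟨N1, hN1⟩ : ∃ N1 : ℕ, N1 = (b + 1) * (M + 1) := ⟨_, rfl⟩
  refine ⟨P.a * N1 + 1, ?_⟩
  intro α _ m hwf hN hcov'
  have hne : Nonempty α := by
    by_contra h
    rw [not_nonempty_iff] at h
    have h1 : Nat.card α = 0 := Nat.card_of_isEmpty
    omega
  obtain ⟨y0⟩ := hne
  obtain ⟨c, hc⟩ : ∃ c : ℕ → α, c = fun i => m.w y0 i := ⟨_, rfl⟩
  have hcw : ∀ y, ∀ i < P.a, m.w y i = c i := by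
    intro y i hi
    rw [hc]
    exact hwf.1 y y0 i hi
  have hcov : ∀ x : α, ∃ i < P.a, ∃ k, m.f^[k] (c i) = x := by
    intro x
    obtain ⟨y, i, hi, k, hk⟩ := hcov' x
    exact ⟨i, hi, k, by rw [← hcw y i hi]; exact hk⟩
  -- a large orbit
  obtain ⟨i, hi, hOi⟩ : ∃ i < P.a, N1 ≤ (Set.range fun k : ℕ => m.f^[k] (c i)).ncard := by
    by_contra h
    push Not at h
    have := Fintype.ofFinite α
    have h1 : (Finset.univ : Finset α) ⊆ (Finset.range P.a).biUnion fun i =>
        (Set.toFinite (Set.range fun k : ℕ => m.f^[k] (c i))).toFinset := by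
      intro x _
      obtain ⟨i, hi, k, hk⟩ := hcov x
      rw [Finset.mem_biUnion]
      refine ⟨i, Finset.mem_range.2 hi, ?_⟩
      rw [Set.Finite.mem_toFinset]
      exact ⟨k, hk⟩
    have h2 := Finset.card_le_card h1
    have h3 := Finset.card_biUnion_le_card_mul (Finset.range P.a) (fun i =>
        (Set.toFinite (Set.range fun k : ℕ => m.f^[k] (c i))).toFinset) N1 (fun i hi => by
      have h4 := h i (Finset.mem_range.1 hi)
      rw [Set.ncard_eq_toFinset_card _ (Set.toFinite _)] at h4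
      exact h4.le)
    rw [Finset.card_range] at h3
    rw [Finset.card_univ, ← Nat.card_eq_fintype_card] at h2
    omega
  have hdiff : ∀ s s' : ℕ, s < s' → s' < N1 → m.f^[s] (c i) ≠ m.f^[s'] (c i) := by
    intro s s' hs hs' h
    have h1 := Set.ncard_le_ncard (orbit_sub m.f (c i) s s' hs h) (Set.toFinite _)
    rw [Set.ncard_coe_finset] at h1
    have h2 : ((Finset.range s').image (fun t => m.f^[t] (c i))).card ≤ s' :=
      Finset.card_image_le.trans (by rw [Finset.card_range])
    omega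
  have hinj : ∀ s < N1, ∀ s' < N1, m.f^[s] (c i) = m.f^[s'] (c i) → s = s' := by
    intro s hs s' hs' h
    by_contra h3
    rcases lt_or_gt_of_ne h3 with h4 | h4
    · exact hdiff s s' h4 hs' h
    · exact hdiff s' s h4 hs h.symm
  -- the bad positions
  obtain ⟨bad, hbad⟩ : ∃ bad : Finset ℕ, bad = (Finset.range N1).filter fun k =>
      m.Nam P (m.f^[k] (c i)) ∨ ∃ y z, y ≠ z ∧ m.f y = m.f^[k] (c i) ∧ m.f z = m.f^[k] (c i) :=
    ⟨_, rfl⟩
  have hmb : ∀ k, k ∈ bad ↔ k < N1 ∧ (m.Nam P (m.f^[k] (c i)) ∨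
      ∃ y z, y ≠ z ∧ m.f y = m.f^[k] (c i) ∧ m.f z = m.f^[k] (c i)) := by
    intro k
    rw [hbad, Finset.mem_filter, Finset.mem_range]
  have hcard : bad.card ≤ b := by
    have h1 : (bad.image fun k => m.f^[k] (c i)).card = bad.card := by
      refine Finset.card_image_of_injOn ?_
      intro k hk k' hk' h
      exact hinj k ((hmb k).1 hk).1 k' ((hmb k').1 hk').1 h
    have h2 : (bad.image fun k => m.f^[k] (c i)) ⊆
        ((Finset.range P.a ×ˢ Finset.range (P.D + 1)).image fun q => m.f^[q.2] (c q.1)) ∪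
          (Set.toFinite {x | ∃ y z, y ≠ z ∧ m.f y = x ∧ m.f z = x}).toFinset := by
      intro z hz
      rw [Finset.mem_image] at hz
      obtain ⟨k, hk, rfl⟩ := hz
      rw [Finset.mem_union]
      rcases ((hmb k).1 hk).2 with ⟨y, i', hi', k', hk', e⟩ | h
      · left
        rw [Finset.mem_image]
        refine ⟨(i', k'), ?_, ?_⟩
        · rw [Finset.mem_product]
          exact ⟨Finset.mem_range.2 hi', Finset.mem_range.2 (Nat.lt_succ_of_le hk')⟩
        · show m.f^[k'] (c i') = _
          rw [← hcw y i' hi', ← e]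
      · right
        rw [Set.Finite.mem_toFinset]
        exact h
    have h3 := (Finset.card_le_card h2).trans (Finset.card_union_le _ _)
    have h4 : ((Finset.range P.a ×ˢ Finset.range (P.D + 1)).image
        fun q => m.f^[q.2] (c q.1)).card ≤ P.a * (P.D + 1) := by
      refine Finset.card_image_le.trans ?_
      rw [Finset.card_product, Finset.card_range, Finset.card_range]
    have h5 := bd α m.f P.a c hcov
    rw [Set.ncard_eq_toFinset_card _ (Set.toFinite _)] at h5
    omega
  obtain ⟨k0, hk0, hgood⟩ := rn b M N1 bad hcard (by rw [hN1])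
  have hg : ∀ s ≤ M, ¬ (m.Nam P (m.f^[k0 + s] (c i)) ∨
      ∃ y z, y ≠ z ∧ m.f y = m.f^[k0 + s] (c i) ∧ m.f z = m.f^[k0 + s] (c i)) := by
    intro s hs h
    exact hgood s hs ((hmb _).2 ⟨by omega, h⟩)
  refine ⟨fun s => m.f^[k0 + s] (c i), fun s _ => ?_, fun s hs s' hs' h => ?_,
    fun s hs z hz => ?_, fun s hs h => hg s hs (Or.inl h)⟩
  · show m.f (m.f^[k0 + s] (c i)) = m.f^[k0 + s + 1] (c i)
    rw [Function.iterate_succ_apply']
  · have h1 := hinj (k0 + s) (by omega) (k0 + s') (by omega) h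
    omega
  · by_contra h
    refine hg (s + 1) hs (Or.inr ⟨z, m.f^[k0 + s] (c i), h, hz, ?_⟩)
    show m.f (m.f^[k0 + s] (c i)) = m.f^[k0 + s + 1] (c i)
    rw [Function.iterate_succ_apply']

end Pool.Agent.H66.FX
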