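import Pool.Agent.H71.FX.Targets2

/-!
Board fxm_modules (MP_64fb07_lc), row PC: an element which is not reached from the constants.
-/

set_option autoImplicit false

namespace Pool.Agent.H66.FX

open Pool.Agent.H71.FX Pool.Agent.H71.PF

theorem iter_cancel {α : Type} {f : α → α} {S : Set α} (hS : ∀ z ∈ S, f z ∈ S)
    (hinj : ∀ z ∈ S, ∀ z' ∈ S, f z = f z' → z = z') : ∀ (n : ℕ) (z z' : α), z ∈ S → z' ∈ S →
    f^[n] z = f^[n] z' → z = z' := by
  intro n
  induction n with
  | zero => intro z z' _ _ h; exact h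
  | succ n ih =>
    intro z z' hz hz' h
    rw [Function.iterate_succ_apply, Function.iterate_succ_apply] at h
    exact hinj z hz z' hz' (ih _ _ (hS z hz) (hS z' hz') h)

theorem iter_mem {α : Type} {f : α → α} {S : Set α} (hS : ∀ z ∈ S, f z ∈ S) (x : α)
    (hx : x ∈ S) (n : ℕ) : f^[n] x ∈ S := by
  induction n with
  | zero => exact hx
  | succ n ih =>
    rw [Function.iterate_succ_apply']
    exact hS _ ih

/-- a finite set in which all elements have preimages, which are in the set -/
theorem surj_inj {α : Type} [Finite α] {f : α → α} {S : Set α}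
    (h1 : ∀ z, f z ∈ S → z ∈ S) (h2 : ∀ z ∈ S, ∃ y, f y = z) :
    (∀ z ∈ S, f z ∈ S) ∧ ∀ z ∈ S, ∀ z' ∈ S, f z = f z' → z = z' := by
  choose! g hg using h2
  let G : S → S := fun z => ⟨g z.1, h1 _ (by rw [hg z.1 z.2]; exact z.2)⟩
  have hG : ∀ z : S, f (G z).1 = z.1 := fun z => hg z.1 z.2
  have hGi : Function.Injective G := by
    intro z z' h
    exact Subtype.ext (by rw [← hG z, ← hG z', h])
  have hGs : Function.Surjective G := Finite.surjective_of_injective hGi
  constructor
  · intro z hz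
    obtain ⟨t, ht⟩ := hGs ⟨z, hz⟩
    have h := hG t
    rw [ht] at h
    show f z ∈ S
    rw [show f z = t.1 from h]
    exact t.2
  · intro z hz z' hz' h
    obtain ⟨t, ht⟩ := hGs ⟨z, hz⟩
    obtain ⟨t', ht'⟩ := hGs ⟨z', hz'⟩
    have h3 := hG t
    have h4 := hG t'
    rw [ht] at h3
    rw [ht'] at h4
    have h5 : t = t' := Subtype.ext (by
      rw [← show f z = t.1 from h3, ← show f z' = t'.1 from h4, h])
    rw [h5, ht'] at ht
    exact (congrArg Subtype.val ht).symm

theorem pf_PC : T_PC := by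
  intro P M α _ m _ _ hM hK x hx
  classical
  set S : Set α := {x | ∀ y, ∀ i < P.a, ∀ k, m.f^[k] (m.w y i) ≠ x} with hSdef
  have hxS : x ∈ S := hx
  have h1 : ∀ z, m.f z ∈ S → z ∈ S := by
    intro z hz y i hi k h
    refine hz y i hi (k + 1) ?_
    rw [Function.iterate_succ_apply', h]
  have h0 : ∀ z ∈ S, ¬ m.Nam P z := by
    rintro z hz ⟨y, i, hi, k, _, h⟩
    exact hz y i hi k h.symm
  have h2 : ∀ z ∈ S, ∃ y, m.f y = z := by
    intro z hz
    by_contra h
    push Not at h
    have h3 := hK {z} ⟨Set.singleton_nonempty z, fun y hy => absurd hy (h y), fun z' hz' => by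
      rw [Set.mem_singleton_iff.1 hz']
      exact h0 z hz⟩
    rw [Set.ncard_singleton] at h3
    omega
  obtain ⟨hS, hinj⟩ := surj_inj h1 h2
  have hmem := iter_mem hS x hxS
  have hcan := iter_cancel hS hinj
  -- periods
  have hper : ∀ i j : ℕ, i < j → m.f^[i] x = m.f^[j] x → m.f^[j - i] x = x := by
    intro i j hij h
    refine hcan i _ _ (hmem _) hxS ?_
    rw [← Function.iterate_add_apply, h]
    congr 2
    omega
  obtain ⟨p, hp0, hp⟩ : ∃ p, 0 < p ∧ m.f^[p] x = x := by
    obtain ⟨i, j, hij, h⟩ := Finite.exists_ne_map_eq_of_infinite (fun n : ℕ => m.f^[n] x)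
    rcases lt_or_gt_of_ne hij with h3 | h3
    · exact ⟨j - i, by omega, hper i j h3 h⟩
    · exact ⟨i - j, by omega, hper j i h3 h.symm⟩
  -- the orbit
  have hfree : Free P m (Set.range fun s : ℕ => m.f^[s] x) := by
    refine ⟨⟨x, 0, rfl⟩, ?_, ?_⟩
    · rintro y ⟨s, hs⟩
      have hs' : m.f^[s] x = m.f y := hs
      have hy : y ∈ S := h1 y (by rw [← hs']; exact hmem s)
      refine ⟨s + p - 1, ?_⟩
      show m.f^[s + p - 1] x = y
      refine hinj _ (hmem _) _ hy ?_
      rw [← hs', ← Function.iterate_succ_apply' (f := m.f)]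
      have e : (s + p - 1).succ = s + p := by omega
      rw [e, Function.iterate_add_apply, hp]
    · rintro z ⟨s, rfl⟩
      exact h0 _ (hmem s)
  have hcard := hK _ hfree
  have hdiff : ∀ s s' : ℕ, s < s' → s' ≤ M → m.f^[s] x ≠ m.f^[s'] x := by
    intro s s' hs hs' h
    have h3 := hper s s' hs h
    have h4 : (Set.range fun s : ℕ => m.f^[s] x) ⊆
        ((Finset.range (s' - s)).image (fun t => m.f^[t] x) : Finset α) := by
      rintro z ⟨t, rfl⟩
      rw [Finset.mem_coe, Finset.mem_image]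
      refine ⟨t % (s' - s), Finset.mem_range.2 (Nat.mod_lt _ (by omega)), ?_⟩
      exact Function.IsPeriodicPt.iterate_mod_apply (f := m.f) h3 t
    have h5 := Set.ncard_le_ncard h4 (Set.toFinite _)
    rw [Set.ncard_coe_finset] at h5
    have h6 : ((Finset.range (s' - s)).image (fun t => m.f^[t] x)).card ≤ s' - s :=
      Finset.card_image_le.trans (by rw [Finset.card_range])
    omega
  refine ⟨fun s => m.f^[s] x, fun s _ => (Function.iterate_succ_apply' m.f s x).symm,
    fun s hs s' hs' h => ?_, fun s _ z hz => ?_, fun s _ => h0 _ (hmem s)⟩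
  · by_contra h3
    rcases lt_or_gt_of_ne h3 with h4 | h4
    · exact hdiff s s' h4 hs' h
    · exact hdiff s' s h4 hs h.symm
  · have hz' : m.f z = m.f^[s + 1] x := hz
    have hzS : z ∈ S := h1 z (by rw [hz']; exact hmem _)
    refine hinj z hzS _ (hmem s) ?_
    rw [hz', Function.iterate_succ_apply']

end Pool.Agent.H66.FX
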